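import Pool.Agent.PTBM.DecBoth

/-!
# Twists of `X³ + Y³ = n` by a prime and by its square, both of rank zero, for the primes of a
decidable set of positive density
-/

set_option autoImplicit false

namespace Pool.Agent.Results.MP_8e0b0b_nt.BothTwistsRankZero

/-- Let `n ≥ 1` and let `m` be the number of primes `p ≡ 1 (mod 3)` with `3 ∤ v_p(n)`. There is a
primitive recursive set `D` of primes, of lower Dirichlet density at least `1 / (24 * 3 ^ m)`, such
that none of the numbers `n q^j`, `q ∈ D`, `j` not divisible by `3`, is a sum of two rational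
cubes. -/
theorem result (n : ℕ) (hn : 0 < n) :
    ∃ D : Set ℕ, PrimrecPred (fun q : ℕ => q ∈ D) ∧
      (∀ q ∈ D, q.Prime ∧ ∀ j : ℕ, ¬ 3 ∣ j →
        ¬ ∃ X Y : ℚ, X ^ 3 + Y ^ 3 = (n : ℚ) * (q : ℚ) ^ j) ∧
      ∃ K : ℝ, ∀ s : ℝ, 1 < s → s ≤ 2 →
        1 / (24 * 3 ^ Nat.card {p : ℕ // p.Prime ∧ p % 3 = 1 ∧ ¬ 3 ∣ n.factorization p}) *
          Real.log (1 / (s - 1)) - K ≤ ∑' q : D, (q : ℝ) ^ (-s) :=
  Pool.Agent.PTB.both_dec n hn

end Pool.Agent.Results.MP_8e0b0b_nt.BothTwistsRankZero
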