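import Pool.Agent.EGQ.FinalD

/-!
# Curves `X³ + Y³ = A` of rank one with an explicit generator, for the `A` of a decidable set
-/

set_option autoImplicit false

namespace Pool.Agent.Results.MP_8e0b0b_nt.KnownGenerator

/-- The curve `y² = x³ - 432 A²`; it is the curve `X³ + Y³ = A` in the coordinates
`x = 12 A / (X + Y)`, `y = 36 A (X - Y) / (X + Y)`. -/
def C (A : ℤ) : WeierstrassCurve ℚ where
  a₁ := 0
  a₂ := 0
  a₃ := 0
  a₄ := 0
  a₆ := -432 * (A : ℚ) ^ 2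

/-- The group `C_A(ℚ)` is generated by at most `n` points. -/
def RankLE (A : ℤ) (n : ℕ) : Prop :=
  ∃ s : Finset (C A).toAffine.Point, s.card ≤ n ∧
    AddSubgroup.closure (s : Set (C A).toAffine.Point) = ⊤

/-- `r(A)`, the least size of a generating set of `C_A(ℚ)`. -/
noncomputable def r (A : ℤ) : ℕ := sInf {n : ℕ | RankLE A n}

/-- The first coordinate of the point. -/
def xP (p q t : ℕ) : ℚ := 4 * ((p : ℚ) ^ 2 - p * q + q ^ 2) / t ^ 2

/-- The second coordinate of the point. -/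
def yP (p q t : ℕ) : ℚ := 4 * ((p : ℚ) + q) * (2 * p - q) * (2 * q - p) / t ^ 3

/-- Let `n ≥ 1` be cube-free and prime to `3`, and let the number of the prime factors `≡ 2 (mod 3)` of `n` be even or some
prime `≡ 2, 5 (mod 9)` divide `n`. Let `M ≥ 1`. There is a primitive recursive set `𝒜` of integers such that every `A ∈ 𝒜` has
the form `A = n p q` with primes `p > n`, `q = p + n t ^ 3`, both `≡ 2 (mod 3)`, `t > 0` divisible by `M`, and `C_A(ℚ)` is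
infinite cyclic, generated by the point `(xP p q t, yP p q t)`; and there is a constant `c > 0` such that `𝒜` has at least
`c x ^ (2 / 3) / (log x) ^ 2` elements up to `x` for arbitrarily large `x`. -/
theorem result (n : ℕ) (hn : 0 < n) (hcf : ∀ p : ℕ, p.Prime → ¬ p ^ 3 ∣ n) (h3 : ¬ 3 ∣ n)
    (hk : Even (n.primeFactors.filter (fun p => p % 3 = 2)).card ∨
      ∃ p : ℕ, p.Prime ∧ p ∣ n ∧ (p % 9 = 2 ∨ p % 9 = 5)) (M : ℕ) (hM : 0 < M) :
    ∃ 𝒜 : Set ℕ, PrimrecPred (fun A : ℕ => A ∈ 𝒜) ∧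
      (∀ A ∈ 𝒜, ∃ p q t : ℕ, p.Prime ∧ q.Prime ∧ n < p ∧ p % 3 = 2 ∧ q % 3 = 2 ∧ 0 < t ∧ M ∣ t ∧
        q = p + n * t ^ 3 ∧ A = n * p * q ∧ r A = 1 ∧
        ∃ h : (C A).toAffine.Nonsingular (xP p q t) (yP p q t),
          ∀ R : (C A).toAffine.Point, ∃! m : ℤ, R = m • WeierstrassCurve.Affine.Point.some _ _ h) ∧
      ∃ c : ℝ, 0 < c ∧ ∀ x₀ : ℕ, ∃ x : ℕ, x₀ ≤ x ∧
        c * ((x : ℝ) ^ (2 / 3 : ℝ) / Real.log x ^ 2) ≤ ({A : ℕ | A ∈ 𝒜 ∧ A ≤ x}.ncard : ℝ) :=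
  Pool.Agent.EGQ.mainD n M ⟨hn, hcf, h3, hk⟩ hM

end Pool.Agent.Results.MP_8e0b0b_nt.KnownGenerator
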