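import Pool.Agent.Lib_helper18.NPDMain

/-!
# A ninth power criterion: primes and squares of primes that are not sums of two rational cubes
-/

namespace Pool.Agent.Results.MP_8e0b0b_nt.NinthPowerCriterion

/-- (a) Let `p` be a prime congruent to 1 modulo 9, write `4 p = L^2 + 27 M^2`, and let `g` be 1 or
2. If `M^g` is not congruent to `27^(g-1)` times a ninth power modulo `p`, then the curve
`X^3 + Y^3 = p^g` has no rational point (apart from the point at infinity).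
(b) If `p` is a prime congruent to 1 modulo 9 and 3 is not a cube modulo `p`, then `p` and `p^2` are not
both sums of two rational cubes. The primes `p` congruent to 1 modulo 9 such that `p` and `p^2` are not
both sums of two rational cubes have lower Dirichlet density at least `1/9`: they are at least two thirds of
the primes congruent to 1 modulo 9. -/
theorem result :
    (∀ p : ℕ, p.Prime → p % 9 = 1 → ∀ L M : ℤ, 4 * (p : ℤ) = L ^ 2 + 27 * M ^ 2 →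
      ∀ g : ℕ, g = 1 ∨ g = 2 → (¬ ∃ t : ℤ, (p : ℤ) ∣ 27 ^ (g - 1) * t ^ 9 - M ^ g) →
        ¬ ∃ X Y : ℚ, X ^ 3 + Y ^ 3 = (p : ℚ) ^ g) ∧
    (∀ p : ℕ, p.Prime → p % 9 = 1 → (¬ ∃ t : ℤ, (p : ℤ) ∣ t ^ 3 - 3) →
      ¬ ((∃ X Y : ℚ, X ^ 3 + Y ^ 3 = (p : ℚ)) ∧ ∃ X Y : ℚ, X ^ 3 + Y ^ 3 = (p : ℚ) ^ 2)) ∧
    ∃ K : ℝ, ∀ s : ℝ, 1 < s → s ≤ 2 →
      1 / 9 * Real.log (1 / (s - 1)) - K ≤
        ∑' p : {p : ℕ // p.Prime ∧ p % 9 = 1 ∧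
          ¬ ((∃ X Y : ℚ, X ^ 3 + Y ^ 3 = (p : ℚ)) ∧ ∃ X Y : ℚ, X ^ 3 + Y ^ 3 = (p : ℚ) ^ 2)},
          (p : ℝ) ^ (-s) := by
  have key : ∀ p : ℕ, (∃ g : ℕ, (g = 1 ∨ g = 2) ∧ ¬ ∃ X Y : ℚ, X ^ 3 + Y ^ 3 = (p : ℚ) ^ g) ↔
      ¬ ((∃ X Y : ℚ, X ^ 3 + Y ^ 3 = (p : ℚ)) ∧ ∃ X Y : ℚ, X ^ 3 + Y ^ 3 = (p : ℚ) ^ 2) := by
    intro p
    constructor
    · rintro ⟨g, hg, h⟩ ⟨h1, h2⟩
      rcases hg with rfl | rfl
      · apply h
        rw [pow_one]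
        exact h1
      · exact h h2
    · intro h
      by_cases h1 : ∃ X Y : ℚ, X ^ 3 + Y ^ 3 = (p : ℚ)
      · exact ⟨2, Or.inr rfl, fun h2 => h ⟨h1, h2⟩⟩
      · refine ⟨1, Or.inl rfl, ?_⟩
        rw [pow_one]
        exact h1
  refine ⟨?_, ?_, ?_⟩
  · rintro p hp h9 L M hLM g hg hM ⟨X, Y, h⟩
    apply hM
    have : Fact p.Prime := ⟨hp⟩
    obtain ⟨τ, hτ⟩ := Pool.Agent.Lib_helper18.main p hp h9 L M hLM (e := g) hg
      (X := X) (Y := Y) h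
    refine ⟨(τ.val : ℤ), ?_⟩
    rw [← ZMod.intCast_zmod_eq_zero_iff_dvd]
    push_cast
    rw [ZMod.natCast_val, ZMod.cast_id', id, hτ]
    ring
  · intro p hp h9 h3
    exact (key p).1 (Pool.Agent.Lib_helper18.NPD.one_of p hp h9 h3)
  · obtain ⟨K, hK⟩ := Pool.Agent.RI.PDGE_thm _
      {p : ℕ | p % 9 = 1 ∧
        ¬ ((∃ X Y : ℚ, X ^ 3 + Y ^ 3 = (p : ℚ)) ∧ ∃ X Y : ℚ, X ^ 3 + Y ^ 3 = (p : ℚ) ^ 2)} ∅ _
      Pool.Agent.Lib_helper18.NPD.dens_one_of fun q hq _ _ => ⟨hq.1, (key q).1 hq.2⟩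
    exact ⟨K, fun s h1 h2 => hK s h1 h2⟩

end Pool.Agent.Results.MP_8e0b0b_nt.NinthPowerCriterion
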