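import Pool.Agent.PTWX.FinalW
/-!
# The law of the ranks of `X³ + Y³ = n q` and `X³ + Y³ = n q²` over all primes `q`, for every cube-free `n`
-/

set_option autoImplicit false

namespace Pool.Agent.Results.MP_8e0b0b_nt.TwoMatrixLaw

/-- The curve `y² = x³ - 432 A²`; it is the curve `X³ + Y³ = A` in the coordinates
`x = 12 A / (X + Y)`, `y = 36 A (X - Y) / (X + Y)`. -/
def C (A : ℤ) : WeierstrassCurve ℚ where
  a₁ := 0
  a₂ := 0
  a₃ := 0
  a₄ := 0
  a₆ := -432 * (A : ℚ) ^ 2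

/-- The group `C_A(ℚ)` is generated by at most `n` points. -/
def RankLE (A : ℤ) (n : ℕ) : Prop :=
  ∃ s : Finset (C A).toAffine.Point, s.card ≤ n ∧
    AddSubgroup.closure (s : Set (C A).toAffine.Point) = ⊤

/-- `r(A)`, the least size of a generating set of `C_A(ℚ)`. -/
noncomputable def r (A : ℤ) : ℕ := sInf {n : ℕ | RankLE A n}

/-- `A` is not a sum of two rational cubes. -/
def NoSum (A : ℤ) : Prop := ¬ ∃ X Y : ℚ, X ^ 3 + Y ^ 3 = (A : ℚ)

open Classical in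
/-- `1` if `P` is true, `0` otherwise -/
noncomputable def tf (P : Prop) : ℝ := if P then 1 else 0

/-- The average of `F(s - rank M)` over the skew-symmetric `s × s` matrices `M` over the field with `3` elements. -/
noncomputable def Skew (s : ℕ) (F : ℕ → ℝ) : ℝ :=
  (∑ᶠ M : {M : Matrix (Fin s) (Fin s) (ZMod 3) // M.transpose = -M}, F (s - M.1.rank)) /
    Nat.card {M : Matrix (Fin s) (Fin s) (ZMod 3) // M.transpose = -M}

/-- The average of `F((v - rank M) + (s - rank M'))` over the pairs of skew-symmetric matrices `M`, `M'` of sizes `v`, `s`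
over the field with `3` elements. -/
noncomputable def Law (v s : ℕ) (F : ℕ → ℝ) : ℝ := Skew v (fun x => Skew s (fun y => F (x + y)))

open Classical in
/-- The sum of `F(A) / q ^ σ` over the pairs `(q, e)` with `e = 1, 2`, `q` in the finite set `T`, `q` prime with the property
`P`, for which `q ^ e` has the property `W`; `A = n q ^ e`. -/
noncomputable def Sum (n : ℤ) (P : ℕ → Prop) (W : ℤ → Prop) (F : ℤ → ℝ) (σ : ℝ) (T : Finset ℕ) : ℝ :=
  ∑ e ∈ ({1, 2} : Finset ℕ), ∑ q ∈ T,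
    if q.Prime ∧ P q ∧ W (q ^ e) then F (n * q ^ e) * (q : ℝ) ^ (-σ) else 0

/-- The sum of `F(A)` over these `A = n q ^ e` is at most `x` times `log (1 / (σ - 1))`, up to a constant. -/
def Above (n : ℤ) (P : ℕ → Prop) (W : ℤ → Prop) (F : ℤ → ℝ) (x : ℝ) : Prop :=
  ∃ K : ℝ, ∀ σ : ℝ, 1 < σ → σ ≤ 2 → ∀ T : Finset ℕ, Sum n P W F σ T ≤ x * Real.log (1 / (σ - 1)) + K

/-- The sum of `F(A)` over these `A = n q ^ e` is at least `x` times `log (1 / (σ - 1))`, up to a constant. -/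
def Below (n : ℤ) (P : ℕ → Prop) (W : ℤ → Prop) (F : ℤ → ℝ) (x : ℝ) : Prop :=
  ∃ K : ℝ, ∀ σ : ℝ, 1 < σ → σ ≤ 2 → ∃ T : Finset ℕ, x * Real.log (1 / (σ - 1)) - K ≤ Sum n P W F σ T

/-- no condition -/
def All {α : Type} (_ : α) : Prop := True

/-- `q ≡ a (mod 3)` -/
def Mod (a q : ℕ) : Prop := q % 3 = a

/-- `y ≡ u x³ (mod 9 n)` for some `x` -/
def Cl (n : ℕ) (u : (ZMod (9 * n))ˣ) (y : ℤ) : Prop :=
  ∃ x : ℤ, ((9 * n : ℕ) : ℤ) ∣ y - ((u : ZMod (9 * n)).val : ℤ) * x ^ 3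

/-- `n u ≡ ± 1 (mod 9)` -/
def N1 (n : ℕ) (u : (ZMod (9 * n))ˣ) : Prop :=
  (n * (u : ZMod (9 * n)).val) % 9 = 1 ∨ (n * (u : ZMod (9 * n)).val) % 9 = 8

/-- `(1 + 3) (1 + 9) ... (1 + 3 ^ k)` -/
noncomputable def Mo (k : ℕ) : ℝ := ∏ i ∈ Finset.range k, (1 + 3 ^ (i + 1))

/-! ### The sums of the library -/

open Classical in
theorem sum_eq (n : ℤ) (a : ℕ) (W : ℤ → Prop) (F : ℤ → ℝ) (σ : ℝ) (T : Finset ℕ) :
    Sum n (Mod a) W F σ T = Pool.Agent.PTN.SumA n a W F σ T := by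
  unfold Sum Pool.Agent.PTN.SumA
  refine Finset.sum_congr rfl fun e _ => Finset.sum_congr rfl fun q _ => ?_
  by_cases hc : q.Prime ∧ q % 3 = a ∧ W ((q : ℤ) ^ e)
  · rw [if_pos (show q.Prime ∧ Mod a q ∧ W ((q : ℤ) ^ e) from hc), if_pos hc]
  · rw [if_neg (show ¬ (q.Prime ∧ Mod a q ∧ W ((q : ℤ) ^ e)) from hc), if_neg hc]

theorem ofA {n : ℤ} {a : ℕ} {W : ℤ → Prop} {F : ℤ → ℝ} {x : ℝ}
    (h : Pool.Agent.PTN.AboveA n a W F x) : Above n (Mod a) W F x := by
  obtain ⟨K, hK⟩ := h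
  refine ⟨K, fun σ h1 h2 T => ?_⟩
  rw [sum_eq]
  exact hK σ h1 h2 T

theorem ofB {n : ℤ} {a : ℕ} {W : ℤ → Prop} {F : ℤ → ℝ} {x : ℝ}
    (h : Pool.Agent.PTN.BelowA n a W F x) : Below n (Mod a) W F x := by
  obtain ⟨K, hK⟩ := h
  refine ⟨K, fun σ h1 h2 => ?_⟩
  obtain ⟨T, hT⟩ := hK σ h1 h2
  refine ⟨T, ?_⟩
  rw [sum_eq]
  exact hT

/-! ### Both residue classes together -/

theorem split {n : ℤ} {F : ℤ → ℝ} (hF : ∀ A, 0 ≤ F A) {σ : ℝ} (hσ : 1 < σ) (T : Finset ℕ) :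
    Sum n All All F σ T ≤ Sum n (Mod 2) All F σ T + Sum n (Mod 1) All F σ T +
      ∑ e ∈ ({1, 2} : Finset ℕ), F (n * 3 ^ e) := by
  unfold Sum
  rw [← Finset.sum_add_distrib, ← Finset.sum_add_distrib]
  refine Finset.sum_le_sum fun e _ => ?_
  have h3 : ∑ q ∈ T, (if q = 3 then F (n * 3 ^ e) else 0) ≤ F (n * 3 ^ e) := by
    rw [Finset.sum_ite_eq']
    split_ifs
    · exact le_rfl
    · exact hF _
  refine le_trans ?_ (add_le_add_right h3 _)
  rw [← Finset.sum_add_distrib, ← Finset.sum_add_distrib]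
  refine Finset.sum_le_sum fun q _ => ?_
  by_cases hq : q.Prime
  · have h4 : q % 3 = 0 ∨ q % 3 = 1 ∨ q % 3 = 2 := by omega
    rcases h4 with h4 | h4 | h4
    · have h5 : q = 3 := ((Nat.prime_dvd_prime_iff_eq Nat.prime_three hq).1
        (Nat.dvd_of_mod_eq_zero h4)).symm
      subst h5
      rw [if_pos ⟨hq, trivial, trivial⟩, if_neg (by simp [Mod]), if_neg (by simp [Mod]), if_pos rfl]
      have h6 : ((3 : ℕ) : ℝ) ^ (-σ) ≤ 1 := by
        apply Real.rpow_le_one_of_one_le_of_nonpos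
        · norm_num
        · linarith
      have h7 := mul_le_mul_of_nonneg_left h6 (hF (n * 3 ^ e))
      push_cast at h7 ⊢
      linarith
    · rw [if_pos ⟨hq, trivial, trivial⟩, if_neg (by simp [Mod, h4]), if_pos ⟨hq, h4, trivial⟩,
        if_neg (by rintro rfl; omega)]
      linarith
    · rw [if_pos ⟨hq, trivial, trivial⟩, if_pos ⟨hq, h4, trivial⟩, if_neg (by simp [Mod, h4]),
        if_neg (by rintro rfl; omega)]
      linarith
  · rw [if_neg (fun h => hq h.1), if_neg (fun h => hq h.1), if_neg (fun h => hq h.1)]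
    split_ifs
    · linarith [hF (n * 3 ^ e)]
    · linarith

theorem above {n : ℤ} {F : ℤ → ℝ} (hF : ∀ A, 0 ≤ F A) {x y : ℝ}
    (h2 : Above n (Mod 2) All F x) (h1 : Above n (Mod 1) All F y) : Above n All All F (x + y) := by
  obtain ⟨K, hK⟩ := h2
  obtain ⟨K', hK'⟩ := h1
  refine ⟨K + K' + ∑ e ∈ ({1, 2} : Finset ℕ), F (n * 3 ^ e), fun σ h1 h2 T => ?_⟩
  have key := split (n := n) hF h1 T
  have h8 := hK σ h1 h2 T
  have h9 := hK' σ h1 h2 T
  linarith

theorem below {n : ℤ} {F : ℤ → ℝ} (hF : ∀ A, 0 ≤ F A) {x y : ℝ}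
    (h2 : Below n (Mod 2) All F x) (h1 : Below n (Mod 1) All F y) : Below n All All F (x + y) := by
  obtain ⟨K, hK⟩ := h2
  obtain ⟨K', hK'⟩ := h1
  refine ⟨K + K', fun σ h1 h2 => ?_⟩
  obtain ⟨T, hT⟩ := hK σ h1 h2
  obtain ⟨T', hT'⟩ := hK' σ h1 h2
  refine ⟨T ∪ T', ?_⟩
  have hnn : ∀ (P : ℕ → Prop) (e q : ℕ), 0 ≤ (open Classical in
      if q.Prime ∧ P q ∧ All ((q : ℤ) ^ e) then F (n * (q : ℤ) ^ e) * (q : ℝ) ^ (-σ) else 0) := by
    intro P e q
    split_ifs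
    · exact mul_nonneg (hF _) (Real.rpow_nonneg (Nat.cast_nonneg q) _)
    · exact le_rfl
  have key : Sum n (Mod 2) All F σ T + Sum n (Mod 1) All F σ T' ≤ Sum n All All F σ (T ∪ T') := by
    have k1 : Sum n (Mod 2) All F σ T ≤ Sum n (Mod 2) All F σ (T ∪ T') := by
      unfold Sum
      exact Finset.sum_le_sum fun e _ => Finset.sum_le_sum_of_subset_of_nonneg
        Finset.subset_union_left fun q _ _ => hnn (Mod 2) e q
    have k2 : Sum n (Mod 1) All F σ T' ≤ Sum n (Mod 1) All F σ (T ∪ T') := by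
      unfold Sum
      exact Finset.sum_le_sum fun e _ => Finset.sum_le_sum_of_subset_of_nonneg
        Finset.subset_union_right fun q _ _ => hnn (Mod 1) e q
    refine (add_le_add k1 k2).trans ?_
    unfold Sum
    rw [← Finset.sum_add_distrib]
    refine Finset.sum_le_sum fun e _ => ?_
    rw [← Finset.sum_add_distrib]
    refine Finset.sum_le_sum fun q _ => ?_
    have h0 := hnn All e q
    by_cases hq : q.Prime
    · by_cases h4 : q % 3 = 2
      · rw [if_pos ⟨hq, h4, trivial⟩, if_neg (by simp [Mod, h4]), if_pos ⟨hq, trivial, trivial⟩]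
        linarith
      · rw [if_neg (fun h => h4 h.2.1)]
        by_cases h5 : q % 3 = 1
        · rw [if_pos ⟨hq, h5, trivial⟩, if_pos ⟨hq, trivial, trivial⟩]
          linarith
        · rw [if_neg (fun h => h5 h.2.1)]
          linarith
    · rw [if_neg (fun h => hq h.1), if_neg (fun h => hq h.1), if_neg (fun h => hq h.1)]
      linarith
  linarith

theorem tf_nonneg (P : Prop) : 0 ≤ tf P := by
  unfold tf
  split_ifs <;> norm_num

open Classical in
/-- Let `n` be cube-free, with `m` prime factors `≡ 1 (mod 3)` and `k` prime factors `≡ 2 (mod 3)`; `δ = 1` if `n` is divisible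
by `3` and not by `9`, otherwise `δ = 0`; `μ = m + 1 - δ`. Let `A = n q ^ e` with `q` prime and `e ∈ {1, 2}`; the weight of
`A` is `q ^ -σ`. All `A` together have total weight `2 log (1 / (σ - 1))`; for `a = 1` and `a = 2` the `A` with
`q ≡ a (mod 3)` have total weight `log (1 / (σ - 1))`, those of them with `q ^ e` in the class `u`, i.e. `q ^ e ≡ u x³ (mod 9 n)`
for some `x`, have total weight `log (1 / (σ - 1)) / 3 ^ (m + 1)`. -/
theorem result (n : ℕ) (hn : 0 < n) (hcf : ∀ p : ℕ, p.Prime → ¬ p ^ 3 ∣ n) (m k δ μ : ℕ)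
    (hm : m = (n.primeFactors.filter (fun p => p % 3 = 1)).card)
    (hk : k = (n.primeFactors.filter (fun p => p % 3 = 2)).card)
    (hδ : δ = (if 3 ∣ n ∧ ¬ 9 ∣ n then 1 else 0)) (hμ : μ + δ = m + 1) :
    -- the law in the classes
    (∃ (v : (ZMod (9 * n))ˣ → ℕ) (s : ℕ → (ZMod (9 * n))ˣ → ℕ),
      (∀ (a : ℕ) (u : (ZMod (9 * n))ˣ),
        s a u + (if N1 n u then 1 else 0) = v u + k + δ + (if a = 1 then 1 else 0)) ∧
      (∑ᶠ u : (ZMod (9 * n))ˣ, (3 : ℝ) ^ v u ≤ (5 / 3) ^ μ * (9 * n).totient) ∧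
      ((2 / 3 : ℝ) ^ μ * (9 * n).totient ≤ Nat.card {u : (ZMod (9 * n))ˣ // v u = 0 ∧ ¬ N1 n u}) ∧
      (¬ 3 ∣ n → (∃ p : ℕ, p.Prime ∧ p ∣ n ∧ (p % 9 = 2 ∨ p % 9 = 5)) →
        1 / 3 * (2 / 3 : ℝ) ^ m * (9 * n).totient ≤ Nat.card {u : (ZMod (9 * n))ˣ // v u = 0 ∧ N1 n u}) ∧
      ∀ a : ℕ, (a = 1 ∨ a = 2) → ∀ u : (ZMod (9 * n))ˣ,
        (∀ F : ℕ → ℝ, Monotone F → 0 ≤ F 0 →
          Above n (Mod a) (Cl n u) (fun A => F (r A)) (Law (v u) (s a u) F / 3 ^ (m + 1))) ∧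
        (∀ t : ℕ, Below n (Mod a) (Cl n u) (fun A => tf (r A < t))
          (Law (v u) (s a u) (fun x => tf (x < t)) / 3 ^ (m + 1))) ∧
        Below n (Mod a) (Cl n u) (fun A => tf (NoSum A))
          (Law (v u) (s a u) (fun x => tf (x < 1)) / 3 ^ (m + 1)) ∧
        -- in numbers
        (Odd (v u + s a u) →
          Below n (Mod a) (Cl n u) (fun A => tf (r A ≤ 1)) (115 / 192 / 3 ^ (m + 1))) ∧
        (Even (v u + s a u) →
          Below n (Mod a) (Cl n u) (fun A => tf (r A ≤ 2)) (17 / 20 / 3 ^ (m + 1))) ∧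
        (Even (v u) → Even (s a u) →
          Below n (Mod a) (Cl n u) (fun A => tf (NoSum A)) (25 / 64 / 3 ^ (m + 1))) ∧
        (v u = 0 → Even (s a u) →
          Below n (Mod a) (Cl n u) (fun A => tf (NoSum A)) (5 / 8 / 3 ^ (m + 1))) ∧
        (v u = 0 → Odd (s a u) →
          Below n (Mod a) (Cl n u) (fun A => tf (r A ≤ 1)) (23 / 24 / 3 ^ (m + 1)))) ∧
    -- the groups are generated by `r(A)` points for all large `q`
    (∃ M : ℕ, ∀ q e : ℕ, q.Prime → M < q → (e = 1 ∨ e = 2) →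
      RankLE (n * q ^ e) (r (n * q ^ e))) ∧
    -- all `A`
    (Above n All All (fun A => r A) (2 * (13 / 6)) ∧
      (∀ j : ℕ, Above n All All (fun A => 3 ^ (j * r A)) (2 * Mo j ^ 2)) ∧
      (∀ j : ℕ, Above n All All (fun A => tf (2 * j + 1 ≤ r A)) (2 * (64 / 25 / 3 ^ j ^ 2))) ∧
      Below n All All (fun A => tf (r A ≤ 2)) (115 / 192 + 17 / 20) ∧
      Below n All All (fun A => tf (r A ≤ 1)) (115 / 192)) ∧
    -- the `A` with `q ≡ a (mod 3)`
    ∀ a : ℕ, (a = 1 ∨ a = 2) →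
      Above n (Mod a) All (fun A => r A) (13 / 6) ∧
      (∀ j : ℕ, Above n (Mod a) All (fun A => 3 ^ (j * r A)) (Mo j ^ 2)) ∧
      Above n (Mod a) All (fun A => 3 ^ r A) (4 * (5 / 3) ^ μ) ∧
      (∀ j : ℕ, Above n (Mod a) All (fun A => tf (2 * j + 1 ≤ r A)) (64 / 25 / 3 ^ j ^ 2)) ∧
      Below n (Mod a) All (fun A => tf (r A ≤ 2)) (115 / 192) ∧
      (Even (k + δ + (if a = 1 then 1 else 0)) →
        Below n (Mod a) All (fun A => tf (NoSum A)) (5 / 8 * (2 / 3) ^ μ)) ∧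
      (Odd (k + δ + (if a = 1 then 1 else 0)) →
        Below n (Mod a) All (fun A => tf (r A ≤ 1)) (23 / 24 * (2 / 3) ^ μ)) := by
  obtain ⟨⟨v, s, hs, hsum, hcd, hcd', hF, ht, hn0, hnum⟩, hgen, hall, hx1, hx2, h32, h31, hev, hod⟩ :=
    Pool.Agent.PTK.FinalW.jMAW n hn hcf m k δ μ hm hk hδ hμ
  have hind : ∀ t : ℕ, (fun x : ℕ => if x < t then (1 : ℝ) else 0) = fun x => tf (x < t) := by
    intro t
    funext x
    unfold tf
    by_cases h : x < t
    · rw [if_pos h, if_pos h]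
    · rw [if_neg h, if_neg h]
  have ht' : ∀ (u : (ZMod (9 * n))ˣ) (t : ℕ),
      Below n (Mod 2) (Cl n u) (fun A => tf (r A < t)) (Law (v u) (s u) (fun x => tf (x < t)) / 3 ^ (m + 1)) ∧
      Below n (Mod 1) (Cl n u) (fun A => tf (r A < t)) (Law (v u) (s u + 1) (fun x => tf (x < t)) / 3 ^ (m + 1)) := by
    intro u t
    rw [← hind t]
    exact ⟨ofB (ht u t).1, ofB (ht u t).2⟩
  have hn' : ∀ u : (ZMod (9 * n))ˣ,
      Below n (Mod 2) (Cl n u) (fun A => tf (NoSum A)) (Law (v u) (s u) (fun x => tf (x < 1)) / 3 ^ (m + 1)) ∧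
      Below n (Mod 1) (Cl n u) (fun A => tf (NoSum A)) (Law (v u) (s u + 1) (fun x => tf (x < 1)) / 3 ^ (m + 1)) := by
    intro u
    rw [← hind 1]
    exact ⟨ofB (hn0 u).1, ofB (hn0 u).2⟩
  refine ⟨⟨v, fun a u => s u + (if a = 1 then 1 else 0), fun a u => ?_, hsum, hcd, hcd', ?_⟩, hgen,
    ⟨?_, ?_, ?_, ?_, ?_⟩, ?_⟩
  · have h := hs u
    have h' : s u + (if N1 n u then 1 else 0) = v u + k + δ := h
    show s u + (if a = 1 then 1 else 0) + (if N1 n u then 1 else 0) = v u + k + δ + (if a = 1 then 1 else 0)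
    omega
  · intro a ha u
    obtain ⟨o1, e1, e2, o2, z1, z2⟩ := hnum u
    rcases ha with rfl | rfl
    · simp only [if_true]
      refine ⟨fun F hF1 hF2 => ofA (hF u F hF1 hF2).2, fun t => (ht' u t).2, (hn' u).2,
        fun h => ?_, fun h => ?_, fun h h' => ?_, fun h h' => ?_, fun h h' => ?_⟩
      · exact ofB (e1 (by rw [Nat.odd_iff] at h; rw [Nat.even_iff]; omega)).2
      · exact ofB (o1 (by rw [Nat.even_iff] at h; rw [Nat.odd_iff]; omega)).2
      · exact ofB (o2 h (by rw [Nat.even_iff] at h'; rw [Nat.odd_iff]; omega))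
      · exact ofB (z2 h (by rw [Nat.even_iff] at h'; rw [Nat.odd_iff]; omega)).2
      · exact ofB (z1 h (by rw [Nat.odd_iff] at h'; rw [Nat.even_iff]; omega)).2
    · simp only [show ¬ ((2 : ℕ) = 1) by omega, if_false, Nat.add_zero]
      refine ⟨fun F hF1 hF2 => ofA (hF u F hF1 hF2).1, fun t => (ht' u t).1, (hn' u).1,
        fun h => ?_, fun h => ?_, fun h h' => ?_, fun h h' => ?_, fun h h' => ?_⟩
      · exact ofB (o1 h).1
      · exact ofB (e1 h).1
      · exact ofB (e2 h h')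
      · exact ofB (z1 h h').1
      · exact ofB (z2 h h').1
  · have h := above (n := n) (F := fun A => (r A : ℝ)) (fun A => Nat.cast_nonneg _)
      (ofA (hall 2 (Or.inr rfl)).1) (ofA (hall 1 (Or.inl rfl)).1)
    rwa [show (2 : ℝ) * (13 / 6) = 13 / 6 + 13 / 6 by norm_num]
  · intro j
    have h := above (n := n) (F := fun A => (3 : ℝ) ^ (j * r A)) (fun A => by positivity)
      (ofA ((hall 2 (Or.inr rfl)).2.1 j)) (ofA ((hall 1 (Or.inl rfl)).2.1 j))
    rw [two_mul]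
    exact h
  · intro j
    have h := above (n := n) (F := fun A => tf (2 * j + 1 ≤ r A)) (fun A => tf_nonneg _)
      (ofA ((hall 2 (Or.inr rfl)).2.2.1 j)) (ofA ((hall 1 (Or.inl rfl)).2.2.1 j))
    rw [two_mul (64 / 25 / 3 ^ j ^ 2 : ℝ)]
    exact h
  · obtain ⟨x₁, x₂, -, -, hx, hb1, hb2⟩ := hx2
    have h := below (n := n) (F := fun A => tf (r A ≤ 2)) (fun A => tf_nonneg _) (ofB hb2) (ofB hb1)
    rw [← hx, add_comm x₁ x₂]
    exact h
  · obtain ⟨x₁, x₂, -, -, hx, hb1, hb2⟩ := hx1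
    have h := below (n := n) (F := fun A => tf (r A ≤ 1)) (fun A => tf_nonneg _) (ofB hb2) (ofB hb1)
    rw [← hx, add_comm x₁ x₂]
    exact h
  · intro a ha
    refine ⟨ofA (hall a ha).1, fun j => ofA ((hall a ha).2.1 j), ?_, fun j => ofA ((hall a ha).2.2.1 j),
      ofB (hall a ha).2.2.2, ?_, ?_⟩
    · rcases ha with rfl | rfl
      · exact ofA h31
      · exact ofA h32
    · intro h
      rcases ha with rfl | rfl
      · simp only [if_true] at h
        exact ofB (hod (by rw [Nat.even_iff] at h; rw [Nat.odd_iff]; omega)).2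
      · simp only [show ¬ ((2 : ℕ) = 1) by omega, if_false, Nat.add_zero] at h
        exact ofB (hev h).1
    · intro h
      rcases ha with rfl | rfl
      · simp only [if_true] at h
        exact ofB (hev (by rw [Nat.odd_iff] at h; rw [Nat.even_iff]; omega)).2
      · simp only [show ¬ ((2 : ℕ) = 1) by omega, if_false, Nat.add_zero] at h
        exact ofB (hod h).1

end Pool.Agent.Results.MP_8e0b0b_nt.TwoMatrixLaw
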